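import Mathlib
import Pool.Agent.Q147.HaarSmall

/-!
# MP_def4bf_gt : `σ𝒩ℱ` can be strictly smaller than the family of Haar-null and Haar-meager sets
-/

namespace Pool.Agent.Results.MP_def4bf_gt.NullFiniteIdealStrict

open MeasureTheory Pool.Agent.Q147.NF

/-- There are an abelian Polish group `X` and a set `B` contained in a Borel Haar-null set and in a
Borel Haar-meager set, but not contained in any countable union of Borel null-finite sets. -/
theorem result : ∃ (X : Type) (_ : AddCommGroup X) (_ : TopologicalSpace X),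
    IsTopologicalAddGroup X ∧ PolishSpace X ∧
    ∃ B : Set X, (∃ N : Set X, MeasurableSet[borel X] N ∧ HaarNull N ∧ B ⊆ N) ∧
      (∃ M : Set X, MeasurableSet[borel X] M ∧ HaarMeager M ∧ B ⊆ M) ∧
      ¬ ∃ C : ℕ → Set X, (∀ i, MeasurableSet[borel X] (C i) ∧ NullFinite (C i)) ∧
        B ⊆ ⋃ i, C i := by
  have hb : MeasurableSet[borel X0] A0 := by
    have h1 : MeasurableSpace.pi = borel X0 := BorelSpace.measurable_eq
    rw [← h1]
    exact isClosed_A0.measurableSet
  refine ⟨X0, inferInstance, inferInstance, inferInstance, inferInstance, A0,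
    ⟨A0, hb, haarNull_A0, subset_rfl⟩, ⟨A0, hb, haarMeager_A0, subset_rfl⟩, ?_⟩
  rintro ⟨B, hB, h⟩
  exact not_covered B (fun i => (hB i).1) (fun i => (hB i).2) h

end Pool.Agent.Results.MP_def4bf_gt.NullFiniteIdealStrict
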